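import Pool.Agent.Lib.MP_426b05_co.Defs

/-!
# MP_426b05_co: working definitions and the statements of the modules

See `Paper.md` in this folder. Every module proves its `…Statement`; earlier statements may be taken as hypotheses.
-/

set_option autoImplicit false

namespace Pool.Agent.Lib.MP_426b05_co

open Finset Filter

/-! ## Part N (all strategies) -/

/-- The sequences of `t` offered sets. -/
abbrev Om (r n t : ℕ) := Fin t → RS r n

/-- Answers that depend only on the sets offered so far. -/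
def Causal {r n t : ℕ} (A : Om r n t → Fin t → Finset (Fin n)) : Prop :=
  ∀ (ω ω' : Om r n t) (i : Fin t), (∀ j, j ≤ i → ω j = ω' j) → A ω i = A ω' i

/-- `p = (φ, τ)` is a coloured copy of the first `i` edges of the pattern `(e, R)`: `φ a` has colour `a`, the times `τ`
are increasing, at time `τ j` the set `φ(R j)` was offered and answered by `φ(e j \ R j)`. -/
def Valid {V : Type} [DecidableEq V] {r n t : ℕ} (A : Om r n t → Fin t → Finset (Fin n)) (χ : Fin n → V)
    (e R : ℕ → Finset V) (i : ℕ) (ω : Om r n t) (p : (V → Fin n) × (Fin i → Fin t)) : Prop :=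
  (∀ a, χ (p.1 a) = a) ∧ StrictMono p.2 ∧
    ∀ j : Fin i, (ω (p.2 j)).1 = (R j).image p.1 ∧ A ω (p.2 j) = (e j \ R j).image p.1

section
open Classical
variable {V : Type} [Fintype V] [DecidableEq V] {r n t : ℕ}

/-- Number of coloured copies of the first `i` edges. -/
noncomputable def cnt (A : Om r n t → Fin t → Finset (Fin n)) (χ : Fin n → V) (e R : ℕ → Finset V) (i : ℕ)
    (ω : Om r n t) : ℕ := (univ.filter fun p : (V → Fin n) × (Fin i → Fin t) => Valid A χ e R i ω p).card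

/-- Number of coloured copies `(φ, τ)` of the first `i` edges with `φ(R i) = U`, `φ(e i \ R i) = B`. -/
noncomputable def cntUB (A : Om r n t → Fin t → Finset (Fin n)) (χ : Fin n → V) (e R : ℕ → Finset V) (i : ℕ)
    (ω : Om r n t) (U : RS r n) (B : Finset (Fin n)) : ℕ :=
  (univ.filter fun p : (V → Fin n) × (Fin i → Fin t) =>
    Valid A χ e R i ω p ∧ (R i).image p.1 = U.1 ∧ (e i \ R i).image p.1 = B).card

/-- `Y = ∑_U max_B cntUB`. -/
noncomputable def ysum (A : Om r n t → Fin t → Finset (Fin n)) (χ : Fin n → V) (e R : ℕ → Finset V) (i : ℕ)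
    (ω : Om r n t) : ℕ := ∑ U : RS r n, univ.sup fun B : Finset (Fin n) => cntUB A χ e R i ω U B

/-- Number of sets `U = φ(R i)` over the coloured copies of the first `i` edges. -/
noncomputable def projCnt (A : Om r n t → Fin t → Finset (Fin n)) (χ : Fin n → V) (e R : ℕ → Finset V) (i : ℕ)
    (ω : Om r n t) : ℕ :=
  (univ.filter fun U : RS r n => ∃ p : (V → Fin n) × (Fin i → Fin t),
    Valid A χ e R i ω p ∧ (R i).image p.1 = U.1).card

/-- Number of pairs of coloured copies of the first `i` edges that agree on `T`. -/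
noncomputable def pairCnt (A : Om r n t → Fin t → Finset (Fin n)) (χ : Fin n → V) (e R : ℕ → Finset V) (i : ℕ)
    (T : Finset V) (ω : Om r n t) : ℕ :=
  (univ.filter fun p : ((V → Fin n) × (Fin i → Fin t)) × ((V → Fin n) × (Fin i → Fin t)) =>
    Valid A χ e R i ω p.1 ∧ Valid A χ e R i ω p.2 ∧ ∀ a ∈ T, p.1.1 a = p.2.1 a).card

end

/-- The indices `j < i` with `e j ⊆ W`. -/
def idx {V : Type} [DecidableEq V] (e : ℕ → Finset V) (i : ℕ) (W : Finset V) : Finset ℕ :=
  (range i).filter fun j => e j ⊆ W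

/-- The answers of the strategy `σ`. -/
def ansOf {r n : ℕ} (σ : Strat n) (t : ℕ) (ω : Om r n t) (i : Fin t) : Finset (Fin n) :=
  σ (run σ ((List.ofFn fun j => (ω j).1).take i)) (ω i).1

/-- (PRED) counting of sequences with predictable values at the times of `T`. -/
def PredStatement : Prop :=
  ∀ (α : Type) [Fintype α] (t : ℕ) (S : Finset (Fin t → α)) (T : Finset (Fin t)),
    (∀ ω ∈ S, ∀ ω' ∈ S, ∀ τ ∈ T, (∀ j, j < τ → ω j = ω' j) → ω τ = ω' τ) →
    S.card * Fintype.card α ^ T.card ≤ Fintype.card α ^ t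

/-- (RES) resampling the last time. -/
def ResStatement : Prop :=
  ∀ (V : Type) [Fintype V] [DecidableEq V] (r n t : ℕ) (A : Om r n t → Fin t → Finset (Fin n)), Causal A →
    ∀ (χ : Fin n → V) (e R : ℕ → Finset V) (i : ℕ),
      (∑ ω : Om r n t, cnt A χ e R (i + 1) ω) * Fintype.card (RS r n) ≤ t * ∑ ω : Om r n t, ysum A χ e R i ω

/-- (YX) `Y ≤ X`. -/
def YxStatement : Prop :=
  ∀ (V : Type) [Fintype V] [DecidableEq V] (r n t : ℕ) (A : Om r n t → Fin t → Finset (Fin n))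
    (χ : Fin n → V) (e R : ℕ → Finset V) (i : ℕ) (ω : Om r n t), ysum A χ e R i ω ≤ cnt A χ e R i ω

/-- (BASE1) copies of the first edge. -/
def Base1Statement : Prop :=
  ∀ (V : Type) [Fintype V] [DecidableEq V] (r n t : ℕ) (A : Om r n t → Fin t → Finset (Fin n))
    (χ : Fin n → V) (e R : ℕ → Finset V) (ω : Om r n t), R 0 ⊆ e 0 →
      cnt A χ e R 1 ω ≤ t * n ^ (Fintype.card V - (e 0).card)

/-- (CS) Cauchy-Schwarz. -/
def CsStatement : Prop :=
  ∀ (V : Type) [Fintype V] [DecidableEq V] (r n t : ℕ) (A : Om r n t → Fin t → Finset (Fin n))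
    (χ : Fin n → V) (e R : ℕ → Finset V) (i : ℕ), R i ⊆ e i →
      (∑ ω : Om r n t, ysum A χ e R i ω) ^ 2 ≤
        (∑ ω : Om r n t, projCnt A χ e R i ω) * ∑ ω : Om r n t, pairCnt A χ e R i (e i) ω

/-- (PROJ) first moment for the projections. -/
def ProjStatement : Prop :=
  ∀ (V : Type) [Fintype V] [DecidableEq V] (r n t k : ℕ) (A : Om r n t → Fin t → Finset (Fin n)), Causal A →
    ∀ (χ : Fin n → V) (e R : ℕ → Finset V) (i : ℕ) (W : Finset V), R i ⊆ W → (idx e i W).Nonempty →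
      (∀ j < i, R j ⊆ e j ∧ (e j \ R j).card = k) →
      (∑ ω : Om r n t, projCnt A χ e R i ω) * Fintype.card (RS r n) ^ (idx e i W).card ≤
        Fintype.card (RS r n) ^ t * n ^ (W.card - k) * t ^ (idx e i W).card

/-- (PAIR) first moment for the pairs. -/
def PairStatement : Prop :=
  ∀ (V : Type) [Fintype V] [DecidableEq V] (r n t k : ℕ) (A : Om r n t → Fin t → Finset (Fin n)), Causal A →
    ∀ (χ : Fin n → V) (e R : ℕ → Finset V) (i : ℕ), 1 ≤ i → (∀ j < i, R j ⊆ e j) → (e 0 \ R 0).card = k →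
      (∀ j < i, ∀ j' < i, e j = e j' → j = j') → ∀ T : Finset V,
      (∑ ω : Om r n t, pairCnt A χ e R i T ω) * Fintype.card (RS r n) ^ (2 * i) ≤
        Fintype.card (RS r n) ^ t *
          ∑ W ∈ univ.filter (fun W : Finset V => T ⊆ W), ∑ J ∈ (idx e i W).powerset,
            n ^ ((Fintype.card V - k) + (Fintype.card V - (W ∪ (e 0 \ R 0)).card)) *
              (t ^ (2 * i - J.card) * Fintype.card (RS r n) ^ J.card)

/-- A pattern enumerating `E`. -/
structure IsPattern {V : Type} [DecidableEq V] (r : ℕ) (E : Finset (Finset V)) (e R : ℕ → Finset V) : Prop where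
  mem : ∀ j < E.card, e j ∈ E
  inj : ∀ j < E.card, ∀ j' < E.card, e j = e j' → j = j'
  sub : ∀ j < E.card, R j ⊆ e j
  card : ∀ j < E.card, (R j).card = r

/-- (LOSS) the combination: the square of the expected number of copies of the whole pattern. Here `C = e 0 \ R 0`,
`q = t / N`, and `W'` is any set containing `R i` and `C` that contains an edge of index `< i` or has `≥ r + k`
elements. -/
def LossStatement : Prop :=
  ∀ (V : Type) [Fintype V] [DecidableEq V] (r s n t : ℕ) (E : Finset (Finset V)), 1 ≤ r → r < s →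
    (∀ f ∈ E, f.card = s) →
    ∀ (A : Om r n t → Fin t → Finset (Fin n)), Causal A → 0 < Fintype.card (RS r n) → t ≤ Fintype.card (RS r n) →
    ∀ (χ : Fin n → V) (e R : ℕ → Finset V), IsPattern r E e R → ∀ (i : ℕ), 1 ≤ i → i < E.card →
    ∀ (W' : Finset V), R i ∪ (e 0 \ R 0) ⊆ W' → ((idx e i W').Nonempty ∨ s ≤ W'.card) →
      ((∑ ω : Om r n t, (cnt A χ e R E.card ω : ℝ)) / (Fintype.card (RS r n) : ℝ) ^ t) ^ 2 ≤
        2 ^ i * ∑ W ∈ univ.filter (fun W : Finset V => e i ⊆ W),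
          (n : ℝ) ^ ((W'.card - (s - r)) + (Fintype.card V - (s - r)) + (Fintype.card V - (W ∪ (e 0 \ R 0)).card)) *
          ((t : ℝ) / Fintype.card (RS r n)) ^
            (2 * (E.card - i) + (idx e i W').card + (2 * i - (idx e i W).card))

/-- (FM) the plain first moment. -/
def FmStatement : Prop :=
  ∀ (V : Type) [Fintype V] [DecidableEq V] (r s n t : ℕ) (E : Finset (Finset V)), r < s → (∀ f ∈ E, f.card = s) →
    ∀ (A : Om r n t → Fin t → Finset (Fin n)), Causal A → 0 < Fintype.card (RS r n) →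
    ∀ (χ : Fin n → V) (e R : ℕ → Finset V), IsPattern r E e R → E.Nonempty →
      (∑ ω : Om r n t, (cnt A χ e R E.card ω : ℝ)) / (Fintype.card (RS r n) : ℝ) ^ t ≤
        (n : ℝ) ^ (Fintype.card V - (s - r)) * ((t : ℝ) / Fintype.card (RS r n)) ^ E.card

/-- (ANS) -/
def AnsStatement : Prop :=
  ∀ (r n t : ℕ) (σ : Strat n), Causal (r := r) (ansOf σ t) ∧
    ∀ (V : Type) (E : Finset (Finset V)) (ω : Om r n t),
      HasCopy E (run σ (List.ofFn fun i => (ω i).1)) ↔
        ∃ φ : V ↪ Fin n, ∀ f ∈ E, ∃ i : Fin t, (ω i).1 ∪ ansOf σ t ω i = f.map φ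

/-- (UNION) the probability of a copy is at most a constant times the largest expected number of coloured copies of a
pattern. -/
def UnionStatement : Prop :=
  ∀ (V : Type) [Fintype V] [DecidableEq V] (r s n t : ℕ) (E : Finset (Finset V)), r < s → (∀ f ∈ E, f.card = s) →
    E.Nonempty → ∀ (σ : Strat n), Legal r s σ → ∀ (b : ℝ), 0 ≤ b → 0 < Fintype.card (RS r n) →
    (∀ (χ : Fin n → V) (e R : ℕ → Finset V), IsPattern r E e R →
      (∑ ω : Om r n t, (cnt (ansOf σ t) χ e R E.card ω : ℝ)) / (Fintype.card (RS r n) : ℝ) ^ t ≤ b) →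
    prob r E σ t ≤
      (Fintype.card V : ℝ) ^ Fintype.card V * (2 ^ Fintype.card V * 2 ^ Fintype.card V) ^ E.card * b

/-- (LOWER) every strategy fails below `n ^ (r - θ)`, `θ e = v - s + r`. -/
def LowerStatement : Prop :=
  ∀ (V : Type) [Fintype V] [DecidableEq V] (r s : ℕ) (E : Finset (Finset V)), 1 ≤ r → r < s →
    (∀ f ∈ E, f.card = s) → E.Nonempty → ∀ (θ : ℝ), θ * E.card = (Fintype.card V : ℝ) - s + r →
    ∀ σ : ∀ n, Strat n, (∀ n, s ≤ n → Legal r s (σ n)) →
    ∀ t : ℕ → ℕ, Tendsto (fun n => (t n : ℝ) / (n : ℝ) ^ ((r : ℝ) - θ)) atTop (nhds 0) →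
      Tendsto (fun n => prob r E (σ n) (t n)) atTop (nhds 0)

/-- (FAILS) if `(V, E)` is not constructible at `θ` then every strategy fails for `t = ⌈n ^ (r - θ + ε)⌉`. -/
def FailsStatement : Prop :=
  ∀ (V : Type) [Fintype V] [DecidableEq V] (r s : ℕ) (E : Finset (Finset V)), 1 ≤ r → r < s →
    (∀ f ∈ E, f.card = s) → E.Nonempty → ∀ (θ : ℝ), θ ≤ r → θ * E.card = (Fintype.card V : ℝ) - s + r →
    ¬ Constructible r s θ E → ∃ ε : ℝ, 0 < ε ∧
      ∀ σ : ∀ n, Strat n, (∀ n, s ≤ n → Legal r s (σ n)) →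
        Tendsto (fun n => prob r E (σ n) ⌈(n : ℝ) ^ ((r : ℝ) - θ + ε)⌉₊) atTop (nhds 0)

/-! ## Part S (the strategy) -/

section
open Classical
variable {V : Type} [Fintype V] [DecidableEq V] {r n : ℕ}

/-- `ψ` has its `j`-th edge: the set `ψ(R j)` is in `A j` and is answered by `ψ(e j \ R j)`. -/
def Pres (F : ℕ → RS r n → Finset (Fin n)) (A : ℕ → Finset (RS r n)) (e R : ℕ → Finset V) (j : ℕ)
    (ψ : V → Fin n) : Prop :=
  ∃ U ∈ A j, U.1 = (R j).image ψ ∧ F j U = (e j \ R j).image ψ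

/-- The property of the answers: whenever some `ψ` in the classes `B` has `ψ(R j) = U` and all the edges `l < j` with
`e l ⊆ W j`, then the answer to `U` in phase `j` is `ψ'(e j \ R j)` for one such `ψ'`. -/
def Choice (B : V → Finset (Fin n)) (F : ℕ → RS r n → Finset (Fin n)) (A : ℕ → Finset (RS r n))
    (e R W : ℕ → Finset V) (m : ℕ) : Prop :=
  ∀ j < m, ∀ U : RS r n, ∀ ψ : V → Fin n, (∀ a, ψ a ∈ B a) → (R j).image ψ = U.1 →
    (∀ l < j, e l ⊆ W j → Pres F A e R l ψ) →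
    ∃ ψ' : V → Fin n, (∀ a, ψ' a ∈ B a) ∧ (R j).image ψ' = U.1 ∧ (∀ l < j, e l ⊆ W j → Pres F A e R l ψ') ∧
      F j U = (e j \ R j).image ψ'

/-- The sets offered in the phases of a round (`∅` for `j ≥ m`). -/
noncomputable def hits {m L : ℕ} (ρ : Fin m → Fin L → RS r n) (j : ℕ) : Finset (RS r n) :=
  if h : j < m then univ.image (ρ ⟨j, h⟩) else ∅

/-- Number of complete copies in the classes `B`. -/
noncomputable def zcnt (B : V → Finset (Fin n)) (F : ℕ → RS r n → Finset (Fin n)) (A : ℕ → Finset (RS r n))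
    (e R : ℕ → Finset V) (m : ℕ) : ℕ :=
  (univ.filter fun φ : V → Fin n => (∀ a, φ a ∈ B a) ∧ ∀ j < m, Pres F A e R j φ).card

/-- The indices `l < j` with `e l ⊆ W` and `e l` meeting `D`. -/
def touch (e : ℕ → Finset V) (j : ℕ) (W D : Finset V) : Finset ℕ :=
  (range j).filter fun l => e l ⊆ W ∧ ¬ Disjoint (e l) D

end

/-- (S1) a copy all of whose `R`-sets are offered is complete, or has a competitor. -/
def S1Statement : Prop :=
  ∀ (V : Type) [Fintype V] [DecidableEq V] (r n m : ℕ) (B : V → Finset (Fin n))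
    (F : ℕ → RS r n → Finset (Fin n)) (A : ℕ → Finset (RS r n)) (e R W : ℕ → Finset V),
    (∀ a b, a ≠ b → Disjoint (B a) (B b)) → (∀ j < m, R j ⊆ e j ∧ e j ⊆ W j) → Choice B F A e R W m →
    ∀ φ : V → Fin n, (∀ a, φ a ∈ B a) → (∀ j < m, ∃ U ∈ A j, U.1 = (R j).image φ) →
      (∀ j < m, Pres F A e R j φ) ∨
      ∃ j < m, ∃ D : Finset V, D ⊆ W j \ R j ∧ D.Nonempty ∧
        (∀ l ∈ touch e j (W j) D, ¬ Disjoint (R l) D) ∧
        ∃ ψ : V → Fin n, (∀ a, ψ a ∈ B a) ∧ (∀ a, a ∈ D ↔ ψ a ≠ φ a) ∧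
          ∀ l ∈ touch e j (W j) D, ∃ U ∈ A l, U.1 = (R l).image ψ

/-- (S2A) upper bound for the probability that all the sets `φ(R j)`, and the sets `ψ(R l)`, `l ∈ S`, are offered. -/
def S2aStatement : Prop :=
  ∀ (V : Type) [Fintype V] [DecidableEq V] (r n m L : ℕ) (R : ℕ → Finset V) (φ ψ : V → Fin n) (S : Finset ℕ),
    S ⊆ range m → (∀ l ∈ S, (R l).image φ ≠ (R l).image ψ) →
    Nat.card {ρ : Fin m → Fin L → RS r n // (∀ j < m, ∃ U ∈ hits ρ j, U.1 = (R j).image φ) ∧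
        ∀ l ∈ S, ∃ U ∈ hits ρ l, U.1 = (R l).image ψ} * Fintype.card (RS r n) ^ (m + S.card) ≤
      Fintype.card (RS r n) ^ (L * m) * L ^ (m + S.card)

/-- (S2B) lower bound for the probability that all the sets `φ(R j)` are offered. -/
def S2bStatement : Prop :=
  ∀ (V : Type) [Fintype V] [DecidableEq V] (r n m L : ℕ) (R : ℕ → Finset V) (φ : V → Fin n),
    L ≤ Fintype.card (RS r n) → (∀ j < m, ((R j).image φ).card = r) →
    Fintype.card (RS r n) ^ (L * m) * L ^ m ≤
      Nat.card {ρ : Fin m → Fin L → RS r n // ∀ j < m, ∃ U ∈ hits ρ j, U.1 = (R j).image φ} *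
        (2 * Fintype.card (RS r n)) ^ m

/-- (S3) first moment of the number of complete copies. `F` is any choice of the answers (depending on the round). -/
def S3Statement : Prop :=
  ∀ (V : Type) [Fintype V] [DecidableEq V] (r n m L : ℕ) (B : V → Finset (Fin n)) (e R W : ℕ → Finset V)
    (F : (Fin m → Fin L → RS r n) → ℕ → RS r n → Finset (Fin n)),
    (∀ a b, a ≠ b → Disjoint (B a) (B b)) → (∀ j < m, R j ⊆ e j ∧ e j ⊆ W j ∧ (R j).card = r) →
    (∀ ρ, Choice B (F ρ) (hits ρ) e R W m) → 0 < Fintype.card (RS r n) → L ≤ Fintype.card (RS r n) →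
    (∀ j < m, ∀ D : Finset V, D ⊆ W j \ R j → D.Nonempty → (∀ l ∈ touch e j (W j) D, ¬ Disjoint (R l) D) →
      ((m : ℝ) * 2 ^ Fintype.card V * 2 ^ (m + 1)) * ((∏ a ∈ D, (((B a).card - 1 : ℕ) : ℝ)) *
        ((L : ℝ) / Fintype.card (RS r n)) ^ (touch e j (W j) D).card) ≤ 1) →
    (∏ a, ((B a).card : ℝ)) * ((L : ℝ) / Fintype.card (RS r n)) ^ m ≤
      2 ^ (m + 1) * ((∑ ρ : Fin m → Fin L → RS r n, (zcnt B (F ρ) (hits ρ) e R m : ℝ)) /
        (Fintype.card (RS r n) : ℝ) ^ (L * m))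

/-- (S4) second moment. -/
def S4Statement : Prop :=
  ∀ (V : Type) [Fintype V] [DecidableEq V] (r n m L : ℕ) (B : V → Finset (Fin n)) (e R : ℕ → Finset V)
    (F : (Fin m → Fin L → RS r n) → ℕ → RS r n → Finset (Fin n)),
    (∀ a b, a ≠ b → Disjoint (B a) (B b)) → (∀ j < m, R j ⊆ e j ∧ (R j).card = r) →
    0 < Fintype.card (RS r n) →
    (∑ ρ : Fin m → Fin L → RS r n, (zcnt B (F ρ) (hits ρ) e R m : ℝ) ^ 2) /
        (Fintype.card (RS r n) : ℝ) ^ (L * m) ≤
      ∑ D : Finset V, (∏ a, ((B a).card : ℝ)) * (∏ a ∈ D, ((B a).card : ℝ)) *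
        ((L : ℝ) / Fintype.card (RS r n)) ^ (m + (touch e m univ D).card)

/-- (S5) Paley-Zygmund: a fixed proportion of the rounds is successful. -/
def S5Statement : Prop :=
  ∀ (V : Type) [Fintype V] [DecidableEq V] (r n m L : ℕ) (K : ℝ) (B : V → Finset (Fin n)) (e R W : ℕ → Finset V)
    (F : (Fin m → Fin L → RS r n) → ℕ → RS r n → Finset (Fin n)),
    0 < K → 1 ≤ L → (∀ a, (B a).Nonempty) →
    (∀ a b, a ≠ b → Disjoint (B a) (B b)) → (∀ j < m, R j ⊆ e j ∧ e j ⊆ W j ∧ (R j).card = r) →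
    (∀ ρ, Choice B (F ρ) (hits ρ) e R W m) → 0 < Fintype.card (RS r n) → L ≤ Fintype.card (RS r n) →
    (∀ j < m, ∀ D : Finset V, D ⊆ W j \ R j → D.Nonempty → (∀ l ∈ touch e j (W j) D, ¬ Disjoint (R l) D) →
      ((m : ℝ) * 2 ^ Fintype.card V * 2 ^ (m + 1)) * ((∏ a ∈ D, (((B a).card - 1 : ℕ) : ℝ)) *
        ((L : ℝ) / Fintype.card (RS r n)) ^ (touch e j (W j) D).card) ≤ 1) →
    (∀ W0 : Finset V, 1 ≤ K * ((∏ a ∈ W0, ((B a).card : ℝ)) *
        ((L : ℝ) / Fintype.card (RS r n)) ^ (idx e m W0).card)) →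
    (Fintype.card (RS r n) : ℝ) ^ (L * m) / (4 ^ (m + 1) * 2 ^ Fintype.card V * K) ≤
      Nat.card {ρ : Fin m → Fin L → RS r n // 0 < zcnt B (F ρ) (hits ρ) e R m}

/-- The data of a plan at `θ`: weights `α`, an enumeration `e` of the edges, the sets `R j`, `W j`. -/
structure IsPlan {V : Type} [Fintype V] [DecidableEq V] (r : ℕ) (θ : ℝ) (E : Finset (Finset V)) (α : V → ℝ)
    (e R W : ℕ → Finset V) : Prop where
  pat : IsPattern r E e R
  nonneg : ∀ a, 0 ≤ α a
  le_one : ∀ a, α a ≤ 1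
  sub : ∀ j < E.card, e j ⊆ W j
  closed : ∀ j < E.card, ∀ W' : Finset V, R j ⊆ W' →
    (∑ a ∈ W j, α a) - θ * (idx e j (W j)).card ≤ (∑ a ∈ W', α a) - θ * (idx e j W').card
  balanced : ∀ W' : Finset V, θ * (idx e E.card W').card ≤ ∑ a ∈ W', α a

/-- (S6) the choice of the parameters: for `L = ⌈n ^ (r - θ)⌉` and large `n` there are classes satisfying the
hypotheses of (S5). -/
def S6Statement : Prop :=
  ∀ (V : Type) [Fintype V] [DecidableEq V] (r : ℕ) (θ : ℝ) (E : Finset (Finset V)) (α : V → ℝ)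
    (e R W : ℕ → Finset V), 1 ≤ r → 0 < θ → θ ≤ r → IsPlan r θ E α e R W →
    ∃ K : ℝ, 0 < K ∧ ∀ᶠ n : ℕ in atTop, 0 < Fintype.card (RS r n) ∧
      1 ≤ ⌈(n : ℝ) ^ ((r : ℝ) - θ)⌉₊ ∧ ⌈(n : ℝ) ^ ((r : ℝ) - θ)⌉₊ ≤ Fintype.card (RS r n) ∧
      ∃ B : V → Finset (Fin n), (∀ a, (B a).Nonempty) ∧ (∀ a b, a ≠ b → Disjoint (B a) (B b)) ∧
        (∀ j < E.card, ∀ D : Finset V, D ⊆ W j \ R j → D.Nonempty →
          (∀ l ∈ touch e j (W j) D, ¬ Disjoint (R l) D) →
          ((E.card : ℝ) * 2 ^ Fintype.card V * 2 ^ (E.card + 1)) * ((∏ a ∈ D, (((B a).card - 1 : ℕ) : ℝ)) *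
            ((⌈(n : ℝ) ^ ((r : ℝ) - θ)⌉₊ : ℝ) / Fintype.card (RS r n)) ^ (touch e j (W j) D).card) ≤ 1) ∧
        (∀ W0 : Finset V, 1 ≤ K * ((∏ a ∈ W0, ((B a).card : ℝ)) *
          ((⌈(n : ℝ) ^ ((r : ℝ) - θ)⌉₊ : ℝ) / Fintype.card (RS r n)) ^ (idx e E.card W0).card))

/-- (S7) the strategy: there are answers `F ρ` with the property `Choice`, and a legal strategy which completes a copy
as soon as one of the consecutive rounds (of `m` phases of length `L`) is successful. -/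
def S7Statement : Prop :=
  ∀ (V : Type) [Fintype V] [DecidableEq V] (r s n L : ℕ) (E : Finset (Finset V)) (B : V → Finset (Fin n))
    (e R W : ℕ → Finset V), 1 ≤ r → r < s → s ≤ n → 1 ≤ L → (∀ f ∈ E, f.card = s) → E.Nonempty →
    (∀ a b, a ≠ b → Disjoint (B a) (B b)) → IsPattern r E e R →
    ∃ (F : (Fin E.card → Fin L → RS r n) → ℕ → RS r n → Finset (Fin n)) (σ : Strat n),
      (∀ ρ, Choice B (F ρ) (hits ρ) e R W E.card) ∧ Legal r s σ ∧
      ∀ (t : ℕ) (u : Om r n t) (κ : ℕ) (hκ : (κ + 1) * (E.card * L) ≤ t),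
        0 < zcnt B
            (F fun j i => u ⟨κ * (E.card * L) + (j.1 * L + i.1), by
              have h1 : j.1 * L + i.1 < E.card * L := by
                have := j.2; have := i.2; nlinarith
              have h2 : (κ + 1) * (E.card * L) = κ * (E.card * L) + E.card * L := by ring
              omega⟩)
            (hits fun (j : Fin E.card) (i : Fin L) => u ⟨κ * (E.card * L) + (j.1 * L + i.1), by
              have h1 : j.1 * L + i.1 < E.card * L := by
                have := j.2; have := i.2; nlinarith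
              have h2 : (κ + 1) * (E.card * L) = κ * (E.card * L) + E.card * L := by ring
              omega⟩) e R E.card →
        HasCopy E (run σ (List.ofFn fun i => (u i).1))

/-- (S8) independent rounds: if a set `G` of round outcomes has proportion at least `c`, then at most a proportion
`(1 - c) ^ κ` of the sequences of length `t ≥ κ M` has no round in `G`. -/
def S8Statement : Prop :=
  ∀ (α : Type) [Fintype α] [DecidableEq α] (M t κ : ℕ) (h : κ * M ≤ t) (c : ℝ) (G : Finset (Fin M → α)), 0 ≤ c →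
    c ≤ 1 → c * (Fintype.card α : ℝ) ^ M ≤ G.card →
    (Nat.card {u : Fin t → α // ∀ x : Fin κ, (fun i : Fin M => u ⟨x.1 * M + i.1, by
        have := x.2; have := i.2
        have h3 : (x.1 + 1) * M ≤ κ * M := Nat.mul_le_mul_right M x.2
        have h4 : (x.1 + 1) * M = x.1 * M + M := by ring
        omega⟩) ∉ G} : ℝ) ≤ (1 - c) ^ κ * (Fintype.card α : ℝ) ^ t

/-- (SUFF) a plan at `θ` gives strategies that succeed for all `t ≫ n ^ (r - θ)`. -/
def SuffStatement : Prop :=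
  ∀ (V : Type) [Fintype V] [DecidableEq V] (r s : ℕ) (θ : ℝ) (E : Finset (Finset V)) (α : V → ℝ)
    (e R W : ℕ → Finset V), 1 ≤ r → r < s → (∀ f ∈ E, f.card = s) → E.Nonempty → 0 < θ → θ ≤ r →
    IsPlan r θ E α e R W →
    ∃ σ : ∀ n, Strat n, (∀ n, s ≤ n → Legal r s (σ n)) ∧
      ∀ t : ℕ → ℕ, Tendsto (fun n => (t n : ℝ) / (n : ℝ) ^ ((r : ℝ) - θ)) atTop atTop →
        Tendsto (fun n => prob r E (σ n) (t n)) atTop (nhds 1)

end Pool.Agent.Lib.MP_426b05_co
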