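import Mathlib

/-!
# MP_426b05_co: semi-random hypergraph games, the statement-level definitions

`V` is the vertex type of the target `s`-graph `H = (V, E)`, `E : Finset (Finset V)`; the board is `Fin n`.
-/

set_option autoImplicit false

namespace Pool.Agent.Lib.MP_426b05_co

open Finset Filter

/-- Histories of the game on `Fin n`: the list of the pairs `(U_i, V_i)` played so far, oldest first. -/
abbrev Hist (n : ℕ) := List (Finset (Fin n) × Finset (Fin n))

/-- A strategy: the answer `V_t` as a function of the history and of the offered set `U_t`. -/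
abbrev Strat (n : ℕ) := Hist n → Finset (Fin n) → Finset (Fin n)

/-- A legal strategy answers every `r`-set by an `(s - r)`-set disjoint from it. -/
def Legal (r s : ℕ) {n : ℕ} (σ : Strat n) : Prop :=
  ∀ (h : Hist n) (U : Finset (Fin n)), U.card = r → (σ h U).card = s - r ∧ Disjoint U (σ h U)

/-- The history after the sets of the list `us` have been offered one after the other. -/
def run {n : ℕ} (σ : Strat n) (us : List (Finset (Fin n))) : Hist n :=
  us.foldl (fun h U => h ++ [(U, σ h U)]) []

/-- The hypergraph with edges `U_i ∪ V_i` contains a copy of `(V, E)`. -/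
def HasCopy {V : Type} (E : Finset (Finset V)) {n : ℕ} (h : Hist n) : Prop :=
  ∃ φ : V ↪ Fin n, ∀ e ∈ E, ∃ p ∈ h, p.1 ∪ p.2 = e.map φ

/-- The `r`-subsets of `Fin n`. -/
abbrev RS (r n : ℕ) := {U : Finset (Fin n) // U.card = r}

/-- The probability that after `t` steps (the offered sets being independent uniform `r`-sets) the strategy `σ`
has built a copy of `(V, E)`. -/
noncomputable def prob (r : ℕ) {V : Type} (E : Finset (Finset V)) {n : ℕ} (σ : Strat n) (t : ℕ) : ℝ :=
  (Nat.card {u : Fin t → RS r n // HasCopy E (run σ (List.ofFn fun i => (u i).1))} : ℝ) /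
    (Nat.card (Fin t → RS r n) : ℝ)

/-- `τ` is a threshold for `(V, E)`: some family of strategies succeeds a.a.s. whenever `t ≫ τ`, and every family of
strategies fails a.a.s. whenever `t = o(τ)`. -/
def IsThreshold (r s : ℕ) {V : Type} (E : Finset (Finset V)) (τ : ℕ → ℝ) : Prop :=
  (∃ σ : ∀ n, Strat n, (∀ n, s ≤ n → Legal r s (σ n)) ∧
    ∀ t : ℕ → ℕ, Tendsto (fun n => (t n : ℝ) / τ n) atTop atTop →
      Tendsto (fun n => prob r E (σ n) (t n)) atTop (nhds 1)) ∧
  (∀ σ : ∀ n, Strat n, (∀ n, s ≤ n → Legal r s (σ n)) →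
    ∀ t : ℕ → ℕ, Tendsto (fun n => (t n : ℝ) / τ n) atTop (nhds 0) →
      Tendsto (fun n => prob r E (σ n) (t n)) atTop (nhds 0))

/-- `μ^{(r)}(H)`: the maximum of `e_{H'} / (v_{H'} - s + r)` over the sub-hypergraphs `H' = (W, F)` of `(V, E)` with at
least `s` vertices. -/
noncomputable def mu (r s : ℕ) {V : Type} (E : Finset (Finset V)) : ℝ :=
  sSup {x : ℝ | ∃ (W : Finset V) (F : Finset (Finset V)), s ≤ W.card ∧ F ⊆ E ∧ (∀ e ∈ F, e ⊆ W) ∧
    x = (F.card : ℝ) / ((W.card : ℝ) - s + r)}

/-- The number of members of `F` contained in `W`. -/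
def eIn {V : Type} [DecidableEq V] (F : Finset (Finset V)) (W : Finset V) : ℕ := (F.filter fun e => e ⊆ W).card

/-- `|W| - θ e_F(W)`. -/
noncomputable def pot {V : Type} [DecidableEq V] (θ : ℝ) (F : Finset (Finset V)) (W : Finset V) : ℝ :=
  (W.card : ℝ) - θ * eIn F W

/-- The edge `e` is addable to `F` with respect to `C`: for some `r`-set `R ⊆ e \ C` the minimum of
`|W| - θ e_F(W)` over the sets `W ⊇ R ∪ C` is attained by a set containing `e ∪ C`. -/
def Addable (r : ℕ) {V : Type} [DecidableEq V] (θ : ℝ) (C : Finset V) (F : Finset (Finset V)) (e : Finset V) : Prop :=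
  ∃ R : Finset V, R ⊆ e \ C ∧ R.card = r ∧
    ∃ W : Finset V, e ∪ C ⊆ W ∧ ∀ W' : Finset V, R ∪ C ⊆ W' → pot θ F W ≤ pot θ F W'

/-- `(V, E)` is constructible at `θ`: for some `(s - r)`-set `C` the edges can be ordered so that each edge is addable
to the set of the earlier ones. -/
def Constructible (r s : ℕ) {V : Type} [DecidableEq V] (θ : ℝ) (E : Finset (Finset V)) : Prop :=
  ∃ (C : Finset V) (l : List (Finset V)), C.card = s - r ∧ l.Nodup ∧ l.toFinset = E ∧
    ∀ (i : ℕ) (hi : i < l.length), Addable r θ C (l.take i).toFinset l[i]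

end Pool.Agent.Lib.MP_426b05_co
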